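import Mathlib

/-!
# Laurent series fields are complete normed fields
-/

set_option autoImplicit false

namespace Pool.Agent.Helper7.BS

open scoped LaurentSeries WithZero NNReal
open MonoidWithZeroHom

/-- the rank one structure of the valuation of `k((t))` -/
@[instance_reducible]
noncomputable def rankOneLaurent (k : Type) [Field k] :
    (Valued.v : Valuation (LaurentSeries k) ℤᵐ⁰).RankOne where
  hom' := (WithZeroMulInt.toNNReal (e := 2) two_ne_zero).comp ValueGroup₀.embedding
  strictMono' := (WithZeroMulInt.toNNReal_strictMono (by norm_num)).comp
    ValueGroup₀.embedding_strictMono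
  exists_val_nontrivial := by
    refine ⟨HahnSeries.single 1 1, ?_, ?_⟩
    · rw [LaurentSeries.valuation_single_zpow]
      exact WithZero.exp_ne_zero
    · rw [LaurentSeries.valuation_single_zpow]
      rw [← WithZero.exp_zero]
      intro h
      have := WithZero.exp_injective h
      omega

/-- the norm of `k((t))` -/
@[instance_reducible]
noncomputable def laurentNormed (k : Type) [Field k] : NontriviallyNormedField (LaurentSeries k) :=
  @Valued.toNontriviallyNormedField (LaurentSeries k) _ ℤᵐ⁰ _ _ (rankOneLaurent k)

theorem laurent_complete (k : Type) [Field k] :
    @CompleteSpace (LaurentSeries k)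
      (laurentNormed k).toNormedField.toMetricSpace.toPseudoMetricSpace.toUniformSpace :=
  LaurentSeries.instLaurentSeriesComplete

example (k : Type) [Field k] : (laurentNormed k).toNormedField.toField =
    (inferInstance : Field (LaurentSeries k)) := rfl

end Pool.Agent.Helper7.BS
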