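import Pool.Agent.Helper7.BS.Core

/-!
# A law for complete fields
-/

set_option autoImplicit false

namespace Pool.Agent.Helper7.BS

open Pool.Agent.Q26.TL Cardinal

/-- A nonzero class over some field gives as many linearly independent classes over a complete
field as that field has elements. -/
theorem law {H : Fun} (hH : Good H) (hG : GaloisDescent H) {P K F : Type} [Field P] [Countable P]
    [PerfectField P] [NontriviallyNormedField K] [CompleteSpace K] [Algebra P K] [Field F]
    [Algebra P F]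
    (base : ∀ (k : Type) [Field k] [Algebra P k] [IsAlgClosure P k] (x : V H k), x = 0)
    (x : V H F) (hx : x ≠ 0) : ∃ v : K → V H K, LinearIndependent ℚ v := by
  classical
  obtain ⟨L, _, _, _, s, y, hy⟩ := exists_fg (P := P) hH x hx
  obtain ⟨T, _, x₁, D, g, halg, hemb, hgal⟩ := exists_model (P := P) (F := L)
  obtain ⟨a, ha⟩ := exists_point (P := P) (K := K) (T := T)
  obtain ⟨N, _, _, _, α, _, _, _, h0, h1⟩ := hgal K a ha
  let Ω := AlgebraicClosure N
  let i : N →ₐ[P] Ω := IsScalarTower.toAlgHom P N Ω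
  obtain ⟨t, α', hr, hind⟩ := exists_conjugates (K := K) i g _ α h0 h1
  have hφ : ∀ ξ : K, ∃ φ : L →ₐ[P] N, ∀ τ, φ (x₁ τ) = t ξ τ := by
    intro ξ
    refine hemb N (t ξ) (α' ξ) ?_ (hr ξ)
    have h2 : AlgebraicIndependent P (fun τ => i (t ξ τ)) :=
      hind.comp (fun τ : T => (ξ, (1 : N ≃ₐ[K] N), τ)) fun τ τ' h => by simpa using h
    exact h2.of_comp i
  choose φ hφ using hφ
  choose v hv using fun ξ => exists_descent (K := K) hG (φ ξ).toRingHom
    (mp H (Subring.closure (s : Set L)).subtype y)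
  -- the transcendence basis
  let z : K × (N ≃ₐ[K] N) × T → Ω := fun v => i (v.2.1 (t v.1 v.2.2))
  obtain ⟨S, hS, hb⟩ := exists_isTranscendenceBasis_superset hind.to_subtype_range
  let k := algebraicClosure P Ω
  have hc : IsAlgClosed k := by
    rw [← IsAlgClosed.algebraicClosure_eq_bot_iff k Ω]
    exact algebraicClosure.algebraicClosure_eq_bot P Ω
  have hk : IsAlgClosure P k := ⟨hc, inferInstance⟩
  have hb' : IsTranscendenceBasis k (Subtype.val : S → Ω) :=
    (Algebra.IsAlgebraic.isTranscendenceBasis_iff P (S := k)).1 hb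
  let E : K × (N ≃ₐ[K] N) → Finset S := fun w =>
    Finset.univ.image fun τ : T => ⟨z (w.1, w.2, τ), hS ⟨_, rfl⟩⟩
  have hE : ∀ w w' : K × (N ≃ₐ[K] N), w ≠ w' → Disjoint (E w) (E w') := by
    intro w w' hw
    rw [Finset.disjoint_left]
    intro u hu hu'
    obtain ⟨τ, -, h2⟩ := Finset.mem_image.1 hu
    obtain ⟨τ', -, h3⟩ := Finset.mem_image.1 hu'
    have h4 : z (w.1, w.2, τ) = z (w'.1, w'.2, τ') := congrArg Subtype.val (h2.trans h3.symm)
    have h5 := hind.injective h4
    simp only [Prod.mk.injEq] at h5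
    exact hw (Prod.ext h5.1 h5.2.1)
  have halgE : ∀ (w : K × (N ≃ₐ[K] N)) (u : L),
      IsAlgebraic (Algebra.adjoin k ((Subtype.val : S → Ω) '' (E w : Set S)))
        ((i.toRingHom.comp ((w.2 : N →+* N).comp (φ w.1).toRingHom)) u) := by
    intro w u
    refine alg_of_support (P := P) (k := k) x₁ halg
      (i.comp (((w.2 : N →ₐ[K] N).restrictScalars P).comp (φ w.1))) _ (fun τ => ?_) u
    refine ⟨⟨z (w.1, w.2, τ), hS ⟨_, rfl⟩⟩, Finset.mem_coe.2 (Finset.mem_image.2
      ⟨τ, Finset.mem_univ _, rfl⟩), ?_⟩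
    change i (w.2 (t w.1 τ)) = i (w.2 (φ w.1 (x₁ τ)))
    rw [hφ]
  refine ⟨v, ?_⟩
  rw [linearIndependent_iff']
  intro J q hq ξ hξ
  have h2 : ∑ w ∈ J ×ˢ (Finset.univ : Finset (N ≃ₐ[K] N)),
      mp H ((i.toRingHom.comp ((w.2 : N →+* N).comp (φ w.1).toRingHom)).comp
        (Subring.closure (s : Set L)).subtype) (q w.1 • y) = 0 := by
    have h3 := congrArg (mp H (i.toRingHom.comp (algebraMap K N))) hq
    rw [map_sum, map_zero] at h3
    rw [Finset.sum_product]
    refine Eq.trans (Finset.sum_congr rfl fun ξ _ => ?_) h3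
    rw [map_smul, ← mp_mp, hv, map_sum, Finset.smul_sum]
    refine Finset.sum_congr rfl fun σ _ => ?_
    rw [map_smul, mp_mp, mp_mp]
  have h4 := indep_zero hH (k := k) (Subtype.val : S → Ω) hb' (fun x => base k x) s
    (fun w => q w.1 • y) _ _ E (fun w _ w' _ hw => hE w w' hw) (fun w _ u => halgE w u) h2
    (ξ, 1) (Finset.mem_product.2 ⟨hξ, Finset.mem_univ _⟩)
  by_contra hne
  rw [map_smul] at h4
  have h5 := (smul_eq_zero.1 h4).resolve_left hne
  rw [← mp_mp] at h5
  exact hy ((injective_iff_map_eq_zero _).1 (hH.inj _) _ h5)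

end Pool.Agent.Helper7.BS
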