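import Mathlib

/-!
# Conjugates of generic elements are independent
-/

set_option autoImplicit false

namespace Pool.Agent.Helper7.BS

open MvPolynomial

/-- An affine invertible change of variables preserves algebraic independence. -/
theorem indep_change {B Ω G ι T Ξ : Type} [Field B] [Field Ω] [Algebra B Ω] [Fintype G]
    [DecidableEq G] [Fintype ι] (A : G → ι → B) (A' : ι → G → B)
    (hA : ∀ σ σ', ∑ j, A σ j * A' j σ' = if σ = σ' then 1 else 0) (a : G → T → B)
    (e : Ξ → ι → T → Ω) (he : AlgebraicIndependent B fun v : Ξ × ι × T => e v.1 v.2.1 v.2.2) :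
    AlgebraicIndependent B fun v : Ξ × G × T =>
      algebraMap B Ω (a v.2.1 v.2.2) + ∑ j, algebraMap B Ω (A v.2.1 j) * e v.1 j v.2.2 := by
  classical
  let Ψ : MvPolynomial (Ξ × G × T) B →ₐ[B] MvPolynomial (Ξ × ι × T) B :=
    aeval fun v : Ξ × G × T => C (a v.2.1 v.2.2) + ∑ j, C (A v.2.1 j) * X (v.1, j, v.2.2)
  let Φ : MvPolynomial (Ξ × ι × T) B →ₐ[B] MvPolynomial (Ξ × G × T) B :=
    aeval fun v : Ξ × ι × T => ∑ σ, C (A' v.2.1 σ) * (X (v.1, σ, v.2.2) - C (a σ v.2.2))
  have h1 : Φ.comp Ψ = AlgHom.id B _ := by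
    apply MvPolynomial.algHom_ext
    rintro ⟨ξ, σ, τ⟩
    simp only [Ψ, Φ, AlgHom.comp_apply, aeval_X, map_add, map_sum, map_mul, AlgHom.id_apply,
      MvPolynomial.algHom_C, MvPolynomial.algebraMap_eq]
    have h2 : ∑ j, C (A σ j) * ∑ σ', C (A' j σ') *
        ((X (ξ, σ', τ) : MvPolynomial (Ξ × G × T) B) - C (a σ' τ)) =
        ∑ σ', C (∑ j, A σ j * A' j σ') * (X (ξ, σ', τ) - C (a σ' τ)) := by
      simp_rw [Finset.mul_sum, map_sum, Finset.sum_mul]
      rw [Finset.sum_comm]
      refine Finset.sum_congr rfl fun σ' _ => Finset.sum_congr rfl fun j _ => ?_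
      rw [map_mul]
      ring
    rw [h2]
    simp_rw [hA]
    rw [Finset.sum_eq_single σ]
    · simp
    · intro σ' _ h
      simp [h.symm]
    · simp
  have h3 : Function.Injective Ψ := by
    intro p q h
    have h4 := congrArg Φ h
    rw [← AlgHom.comp_apply, ← AlgHom.comp_apply, h1] at h4
    exact h4
  have h5 : (aeval (R := B) fun v : Ξ × G × T =>
      algebraMap B Ω (a v.2.1 v.2.2) + ∑ j, algebraMap B Ω (A v.2.1 j) * e v.1 j v.2.2) =
      (aeval (R := B) fun v : Ξ × ι × T => e v.1 v.2.1 v.2.2).comp Ψ := by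
    apply MvPolynomial.algHom_ext
    rintro ⟨ξ, σ, τ⟩
    simp [Ψ]
  rw [AlgebraicIndependent, h5, AlgHom.coe_comp]
  exact Function.Injective.comp he h3

/-- Dual bases for the trace form, as matrices of conjugates. -/
theorem exists_trace_duality (K N : Type) [Field K] [Field N] [Algebra K N]
    [FiniteDimensional K N] [IsGalois K N] [DecidableEq (N ≃ₐ[K] N)] :
    ∃ (n : ℕ) (θ β : Fin n → N), ∀ σ σ' : N ≃ₐ[K] N,
      ∑ j, σ (θ j) * σ' (β j) = if σ = σ' then 1 else 0 := by
  let b := Module.finBasis K N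
  let θ := (Algebra.traceForm K N).dualBasis (traceForm_nondegenerate K N) b
  refine ⟨Module.finrank K N, θ, b, ?_⟩
  let M : Matrix (N ≃ₐ[K] N) (Fin (Module.finrank K N)) N := .of fun σ j => σ (θ j)
  let M' : Matrix (Fin (Module.finrank K N)) (N ≃ₐ[K] N) N := .of fun j σ => σ (b j)
  have h1 : M' * M = 1 := by
    ext i j
    rw [Matrix.mul_apply]
    simp only [M, M', Matrix.of_apply]
    have h2 := trace_eq_sum_automorphisms (K := K) (L := N) (θ j * b i)
    have h3 := (Algebra.traceForm K N).apply_dualBasis_left (traceForm_nondegenerate K N) b j i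
    rw [Algebra.traceForm_apply] at h3
    rw [h3] at h2
    rw [Matrix.one_apply, ← map_one (algebraMap K N), ← map_zero (algebraMap K N),
      ← apply_ite, h2]
    exact Finset.sum_congr rfl fun σ _ => by rw [map_mul, mul_comm]
  have h2 : M * M' = 1 := by
    rw [Matrix.mul_eq_one_comm_of_card_eq]
    · exact h1
    · rw [Fintype.card_fin, ← IsGalois.card_aut_eq_finrank, Nat.card_eq_fintype_card]
  intro σ σ'
  have h3 := congrFun (congrFun h2 σ) σ'
  rw [Matrix.mul_apply, Matrix.one_apply] at h3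
  exact h3

end Pool.Agent.Helper7.BS
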