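import Mathlib

/-!
# Generic points near a given point
-/

set_option autoImplicit false

namespace Pool.Agent.Helper7.BS

open Cardinal

/-- A small ball of a complete field contains as many elements which are algebraically
independent over a countable field as the field has elements. -/
theorem exists_generic {B Ω K : Type} [Field B] [Countable B] [Field Ω] [Algebra B Ω]
    [NontriviallyNormedField K] [CompleteSpace K] (i : K →+* Ω) (ε : ℝ) (hε : 0 < ε) :
    ∃ c : K → K, (∀ x, ‖c x‖ < ε) ∧ AlgebraicIndependent B (fun x => i (c x)) := by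
  classical
  let W : Set Ω := i '' {x : K | ‖x‖ < ε}
  obtain ⟨u, -, hu⟩ := exists_maximal_algebraicIndependent (R := B) (∅ : Set Ω) W
    (Set.empty_subset _) ((algebraicIndependent_empty_iff B Ω).2 (algebraMap B Ω).injective)
  have hu1 : AlgebraicIndepOn B id u := hu.1.1
  have hu2 : u ⊆ W := hu.1.2
  let F := IntermediateField.adjoin B u
  let C := algebraicClosure F Ω
  have hC : ∀ w ∈ W, w ∈ C := by
    intro w hw
    by_cases hwu : w ∈ u
    · exact algebraMap_mem C (⟨w, IntermediateField.subset_adjoin B u hwu⟩ : F)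
    · have h1 : ¬ AlgebraicIndepOn B id (insert w u) := by
        intro h2
        have h3 := hu.2 ⟨h2, Set.insert_subset hw hu2⟩ (Set.subset_insert w u)
        exact hwu (h3 (Set.mem_insert w u))
      rw [AlgebraicIndepOn.insert_iff hwu] at h1
      have h2 : IsAlgebraic (Algebra.adjoin B (id '' u)) (id w) := by
        by_contra h3
        exact h1 ⟨hu1, h3⟩
      rw [Set.image_id] at h2
      change IsAlgebraic (Algebra.adjoin B u) w at h2
      rw [mem_algebraicClosure_iff]
      have hle : Algebra.adjoin B u ≤ F.toSubalgebra := IntermediateField.algebra_adjoin_le_adjoin B u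
      exact h2.ringHom_of_comp_eq (S := F) (B := Ω) (Subalgebra.inclusion hle).toRingHom
        (RingHom.id Ω) (Subalgebra.inclusion_injective hle) rfl
  have hK : ∀ x : K, i x ∈ C := by
    intro x
    obtain ⟨π, hπ0, hπ1⟩ := NormedField.exists_norm_lt_one K
    have h1 : Filter.Tendsto (fun n : ℕ => π ^ n) Filter.atTop (nhds 0) :=
      tendsto_pow_atTop_nhds_zero_of_norm_lt_one hπ1
    have h2 : Filter.Tendsto (fun n : ℕ => ‖π ^ n * x‖) Filter.atTop (nhds 0) := by
      simpa using (h1.mul_const x).norm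
    have h3 : Filter.Tendsto (fun n : ℕ => ‖π ^ n‖) Filter.atTop (nhds 0) := by
      simpa using h1.norm
    obtain ⟨n, hn1, hn2⟩ := ((h2.eventually_lt_const hε).and (h3.eventually_lt_const hε)).exists
    have h4 : i (π ^ n * x) ∈ C := hC _ ⟨_, hn1, rfl⟩
    have h5 : i (π ^ n) ∈ C := hC _ ⟨_, hn2, rfl⟩
    have h6 : i (π ^ n) ≠ 0 := by
      rw [Ne, map_eq_zero]
      exact pow_ne_zero _ (norm_pos_iff.1 hπ0)
    have h7 : i x = i (π ^ n * x) / i (π ^ n) := by
      rw [map_mul]
      field_simp
    rw [h7]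
    exact div_mem h4 h5
  have hcard1 : #K ≤ #C :=
    Cardinal.mk_le_of_injective (f := fun x : K => (⟨i x, hK x⟩ : C))
      fun x y h => i.injective (congrArg Subtype.val h)
  have hcard2 : #C ≤ #u ⊔ ℵ₀ := by
    have h1 : #C ≤ #F ⊔ ℵ₀ := Algebra.IsAlgebraic.cardinalMk_le_max F C
    have h2 : #F ≤ #B ⊔ #u ⊔ ℵ₀ := IntermediateField.cardinalMk_adjoin_le B u
    have h3 : #B ≤ ℵ₀ := Cardinal.mk_le_aleph0
    refine h1.trans (sup_le (h2.trans (sup_le (sup_le (h3.trans le_sup_right) le_sup_left)
      le_sup_right)) le_sup_right)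
  have hcard3 : #K ≤ #u := by
    have h1 : 𝔠 ≤ #K := continuum_le_cardinal_of_nontriviallyNormedField K
    rcases le_total (#u) ℵ₀ with h2 | h2
    · rw [sup_eq_right.2 h2] at hcard2
      exact absurd (h1.trans (hcard1.trans hcard2)) (not_le.2 Cardinal.aleph0_lt_continuum)
    · rw [sup_eq_left.2 h2] at hcard2
      exact hcard1.trans hcard2
  obtain ⟨f⟩ := hcard3
  have h1 : ∀ x : K, ∃ y : K, ‖y‖ < ε ∧ i y = (f x : Ω) := fun x => hu2 (f x).2
  choose c hc1 hc2 using h1
  refine ⟨c, hc1, ?_⟩
  have h2 : (fun x => i (c x)) = (fun w : u => (w : Ω)) ∘ f := by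
    funext x
    exact hc2 x
  rw [h2]
  exact AlgebraicIndependent.comp hu1 f f.injective

end Pool.Agent.Helper7.BS
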