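import Pool.Agent.Helper7.BS.Coord
import Pool.Agent.Helper7.BS.Generic
import Pool.Agent.Helper7.BS.Change

/-!
# Points near a given point all of whose conjugates are independent
-/

set_option autoImplicit false

namespace Pool.Agent.Helper7.BS

open Cardinal

theorem exists_embedding {K J : Type} [Infinite K] [Finite J] : Nonempty (K × J ↪ K) := by
  rw [← Cardinal.le_def, Cardinal.mk_prod, Cardinal.lift_id, Cardinal.lift_id]
  refine (Cardinal.mul_le_max_of_aleph0_le_left (Cardinal.aleph0_le_mk K)).trans ?_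
  rw [max_le_iff]
  exact ⟨le_rfl, (Cardinal.mk_lt_aleph0_iff.2 inferInstance).le.trans (Cardinal.aleph0_le_mk K)⟩

theorem conj_indep {P K N T Ω Ξ : Type} [Field P] [Field K] [Field N] [Algebra K N]
    [FiniteDimensional K N] [Algebra P N] [Field Ω] [Algebra P Ω] [DecidableEq (N ≃ₐ[K] N)]
    (i : N →ₐ[P] Ω) (B : IntermediateField P Ω) (n : ℕ) (θ β : Fin n → N)
    (hθ : ∀ σ σ' : N ≃ₐ[K] N, ∑ j, σ (θ j) * σ' (β j) = if σ = σ' then 1 else 0) (a : T → N)
    (hB1 : ∀ (σ : N ≃ₐ[K] N) j, i (σ (θ j)) ∈ B) (hB2 : ∀ (σ : N ≃ₐ[K] N) j, i (σ (β j)) ∈ B)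
    (hB3 : ∀ (σ : N ≃ₐ[K] N) τ, i (σ (a τ)) ∈ B) (e : Ξ → Fin n → T → K)
    (he : AlgebraicIndependent B fun v : Ξ × Fin n × T =>
      i (algebraMap K N (e v.1 v.2.1 v.2.2))) :
    AlgebraicIndependent P (fun v : Ξ × (N ≃ₐ[K] N) × T =>
      i (v.2.1 (a v.2.2 + ∑ j, e v.1 j v.2.2 • θ j))) := by
  have hA : ∀ σ σ' : N ≃ₐ[K] N, ∑ j, (⟨i (σ (θ j)), hB1 σ j⟩ : B) * ⟨i (σ' (β j)), hB2 σ' j⟩ =
      if σ = σ' then 1 else 0 := by
    intro σ σ'
    apply Subtype.ext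
    have h4 := congrArg i (hθ σ σ')
    rw [map_sum] at h4
    simp_rw [map_mul] at h4
    have h5 : ((if σ = σ' then 1 else 0 : B) : Ω) = i (if σ = σ' then 1 else 0) := by
      split_ifs <;> simp
    rw [h5, ← h4]
    simp
  have h3 := indep_change (B := B) (Ω := Ω) (G := N ≃ₐ[K] N) (ι := Fin n) (T := T) (Ξ := Ξ)
    (fun σ j => ⟨i (σ (θ j)), hB1 σ j⟩) (fun j σ => ⟨i (σ (β j)), hB2 σ j⟩) hA
    (fun σ τ => ⟨i (σ (a τ)), hB3 σ τ⟩) (fun ξ j τ => i (algebraMap K N (e ξ j τ))) he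
  have h6 : (fun v : Ξ × (N ≃ₐ[K] N) × T =>
      i (v.2.1 (a v.2.2 + ∑ j, e v.1 j v.2.2 • θ j))) = fun v : Ξ × (N ≃ₐ[K] N) × T =>
      algebraMap B Ω ⟨i (v.2.1 (a v.2.2)), hB3 v.2.1 v.2.2⟩ +
        ∑ j, algebraMap B Ω ⟨i (v.2.1 (θ j)), hB1 v.2.1 j⟩ *
          i (algebraMap K N (e v.1 j v.2.2)) := by
    funext v
    have h7 : ∀ (b : B), algebraMap B Ω b = (b : Ω) := fun _ => rfl
    simp only [h7, map_add, map_sum]
    congr 1
    refine Finset.sum_congr rfl fun j _ => ?_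
    rw [map_smul, Algebra.smul_def, map_mul, mul_comm]
  rw [h6]
  exact h3.restrictScalars (algebraMap P B).injective

theorem exists_countable {P Ω : Type} [Field P] [Countable P] [Field Ω] [Algebra P Ω]
    (R : Set Ω) (hR : R.Finite) : ∃ B : IntermediateField P Ω, Countable B ∧ ∀ r ∈ R, r ∈ B := by
  refine ⟨IntermediateField.adjoin P R, ?_, fun r hr => IntermediateField.subset_adjoin P R hr⟩
  rw [← Cardinal.mk_le_aleph0_iff]
  refine (IntermediateField.cardinalMk_adjoin_le P R).trans ?_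
  exact sup_le (sup_le Cardinal.mk_le_aleph0 hR.countable.le_aleph0) le_rfl

theorem exists_conjugates {P K N T Ω : Type} [Field P] [Countable P] [Fintype T]
    [NontriviallyNormedField K] [CompleteSpace K] [Field N] [Algebra K N]
    [FiniteDimensional K N] [IsGalois K N] [Algebra P N] [Field Ω] [Algebra P Ω]
    (i : N →ₐ[P] Ω) {D : ℕ} (g : Fin (D + 1) → MvPolynomial T P) (a : T → N) (α : N)
    (h0 : pval (fun k => MvPolynomial.aeval a (g k)) α = 0)
    (h1 : dval (fun k => MvPolynomial.aeval a (g k)) α ≠ 0) :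
    ∃ (t : K → T → N) (α' : K → N),
      (∀ ξ, pval (fun k => MvPolynomial.aeval (t ξ) (g k)) (α' ξ) = 0) ∧
      AlgebraicIndependent P (fun v : K × (N ≃ₐ[K] N) × T => i (v.2.1 (t v.1 v.2.2))) := by
  classical
  obtain ⟨n, θ, β, hθ⟩ := exists_trace_duality K N
  obtain ⟨ε, hε, hroot⟩ := root_coord (P := P) (K := K) θ g a α h0 h1
  obtain ⟨B, hBc, hB⟩ := exists_countable (P := P)
    ((Set.range fun v : (N ≃ₐ[K] N) × Fin n => i (v.1 (θ v.2))) ∪
    (Set.range fun v : (N ≃ₐ[K] N) × Fin n => i (v.1 (β v.2))) ∪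
    (Set.range fun v : (N ≃ₐ[K] N) × T => i (v.1 (a v.2))))
    (((Set.finite_range _).union (Set.finite_range _)).union (Set.finite_range _))
  obtain ⟨c, hc1, hc2⟩ := exists_generic (B := B) (i.toRingHom.comp (algebraMap K N)) ε hε
  have hKinf : Infinite K := NontriviallyNormedField.infinite K
  obtain ⟨em⟩ := exists_embedding (K := K) (J := Fin n × T)
  have h2 : ∀ ξ, ∃ α', pval (fun k =>
      MvPolynomial.aeval (fun τ => a τ + ∑ j, c (em (ξ, j, τ)) • θ j) (g k)) α' = 0 :=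
    fun ξ => hroot (fun j τ => c (em (ξ, j, τ))) fun j τ => hc1 _
  choose α' hα' using h2
  refine ⟨fun ξ τ => a τ + ∑ j, c (em (ξ, j, τ)) • θ j, α', hα', ?_⟩
  refine conj_indep i B n θ β hθ a (fun σ j => hB _ (Or.inl (Or.inl ⟨(σ, j), rfl⟩)))
    (fun σ j => hB _ (Or.inl (Or.inr ⟨(σ, j), rfl⟩)))
    (fun σ τ => hB _ (Or.inr ⟨(σ, τ), rfl⟩)) (fun ξ j τ => c (em (ξ, j, τ))) ?_
  exact hc2.comp em em.injective

end Pool.Agent.Helper7.BS
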