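import Pool.Agent.Helper7.BS.Root

/-!
# Affine models of finitely generated fields
-/

set_option autoImplicit false

namespace Pool.Agent.Helper7.BS

open Polynomial

theorem pval_eq {E N : Type} [Field E] [Field N] (m : E[X]) (ρ : E →+* N) (d α : N) :
    pval (fun k : Fin (m.natDegree + 1) => d * ρ (m.coeff k)) α = d * eval₂ ρ α m := by
  rw [pval, eval₂_eq_sum_range, Finset.mul_sum]
  rw [Fin.sum_univ_eq_sum_range (fun k => d * ρ (m.coeff k) * α ^ k)]
  exact Finset.sum_congr rfl fun k _ => by ring

theorem dval_eq {E N : Type} [Field E] [Field N] (m : E[X]) (ρ : E →+* N) (d α : N) :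
    dval (fun k : Fin (m.natDegree + 1) => d * ρ (m.coeff k)) α =
      d * eval₂ ρ α (derivative m) := by
  have h : derivative m = ∑ k ∈ Finset.range (m.natDegree + 1),
      C (m.coeff k * k) * X ^ (k - 1) := by
    conv_lhs => rw [m.as_sum_range_C_mul_X_pow]
    rw [derivative_sum]
    exact Finset.sum_congr rfl fun k _ => by rw [derivative_C_mul_X_pow]
  rw [h, dval, eval₂_finsetSum, Finset.mul_sum]
  rw [Fin.sum_univ_eq_sum_range (fun k => d * ρ (m.coeff k) * ((k : N) * α ^ (k - 1)))]
  refine Finset.sum_congr rfl fun k _ => ?_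
  rw [eval₂_mul, eval₂_C, eval₂_X_pow, map_mul, map_natCast]
  ring

/-- a homomorphism from a rational function field -/
theorem exists_rat {P E N T : Type} [Field P] [Field E] [Algebra P E] [Field N] [Algebra P N]
    (x : T → E) (hx : AlgebraicIndependent P x) (t : T → N) (ht : AlgebraicIndependent P t) :
    ∃ ρ : IntermediateField.adjoin P (Set.range x) →ₐ[P] N,
      ∀ p : MvPolynomial T P, ρ (hx.aevalEquivField
        (algebraMap (MvPolynomial T P) (FractionRing (MvPolynomial T P)) p)) =
          MvPolynomial.aeval t p := by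
  refine ⟨(IntermediateField.val _).comp (ht.aevalEquivField.toAlgHom.comp
    hx.aevalEquivField.symm.toAlgHom), fun p => ?_⟩
  change (ht.aevalEquivField (hx.aevalEquivField.symm (hx.aevalEquivField _)) : N) = _
  rw [AlgEquiv.symm_apply_apply]
  exact ht.aevalEquivField_algebraMap_apply_coe p

/-- a Galois extension with a root -/
theorem exists_splitting {P E K : Type} [Field P] [Field E] [Field K] [Algebra P K] (m : E[X])
    (hm : m.Separable) (hd : m.degree ≠ 0) (ρ : E →+* K) :
    ∃ (N : Type) (_ : Field N) (_ : Algebra K N) (_ : Algebra P N) (α : N),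
      IsScalarTower P K N ∧ FiniteDimensional K N ∧ IsGalois K N ∧
      eval₂ ((algebraMap K N).comp ρ) α m = 0 := by
  have hgal : IsGalois K (m.map ρ).SplittingField :=
    IsGalois.of_separable_splitting_field (p := m.map ρ) hm.map
  have hdeg : ((m.map ρ).map (algebraMap K (m.map ρ).SplittingField)).degree ≠ 0 := by
    rwa [degree_map, degree_map]
  obtain ⟨α, hα⟩ := (SplittingField.splits (m.map ρ)).exists_eval_eq_zero hdeg
  refine ⟨(m.map ρ).SplittingField, inferInstance, inferInstance, inferInstance, α,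
    ?_, ?_, hgal, ?_⟩
  · infer_instance
  · infer_instance
  rw [eval_map, eval₂_map] at hα
  exact hα

/-- extending a homomorphism along a simple extension -/
theorem exists_lift {P F N E : Type} [Field P] [Field F] [Field N] [Field E] [Algebra P F]
    [Algebra P N] [Algebra P E] [Algebra E F] [IsScalarTower P E F] (pb : PowerBasis E F)
    (ρ : E →ₐ[P] N) (α : N) (h : eval₂ ρ.toRingHom α (minpoly E pb.gen) = 0) :
    ∃ φ : F →ₐ[P] N, ∀ z : E, φ (algebraMap E F z) = ρ z := by
  let _ : Algebra E N := ρ.toRingHom.toAlgebra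
  have hst : IsScalarTower P E N := .of_algebraMap_eq fun z => (ρ.commutes z).symm
  exact ⟨(pb.lift α h).restrictScalars P, fun z => (pb.lift α h).commutes z⟩

/-- the image of the variables -/
theorem algebraMap_var {P E T : Type} [Field P] [Field E] [Algebra P E]
    (x : T → E) (hx : AlgebraicIndependent P x) (τ : T) :
    algebraMap (IntermediateField.adjoin P (Set.range x)) E (hx.aevalEquivField
      (algebraMap (MvPolynomial T P) (FractionRing (MvPolynomial T P)) (MvPolynomial.X τ))) =
        x τ := by
  have h := hx.aevalEquivField_algebraMap_apply_coe (MvPolynomial.X τ)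
  rw [MvPolynomial.aeval_X] at h
  exact h

theorem exists_model {P F : Type} [Field P] [PerfectField P] [Field F] [Algebra P F]
    [Algebra.EssFiniteType P F] :
    ∃ (T : Type) (_ : Fintype T) (x : T → F) (D : ℕ) (g : Fin (D + 1) → MvPolynomial T P),
      Algebra.IsAlgebraic (Algebra.adjoin P (Set.range x)) F ∧
      (∀ (N : Type) [Field N] [Algebra P N] (t : T → N) (α : N), AlgebraicIndependent P t →
        pval (fun k => MvPolynomial.aeval t (g k)) α = 0 →
          ∃ φ : F →ₐ[P] N, ∀ τ, φ (x τ) = t τ) ∧
      ∀ (K : Type) [Field K] [Algebra P K] (a : T → K), AlgebraicIndependent P a →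
        ∃ (N : Type) (_ : Field N) (_ : Algebra K N) (_ : Algebra P N) (α : N),
          IsScalarTower P K N ∧ FiniteDimensional K N ∧ IsGalois K N ∧
          pval (fun k => MvPolynomial.aeval (fun τ => algebraMap K N (a τ)) (g k)) α = 0 ∧
          dval (fun k => MvPolynomial.aeval (fun τ => algebraMap K N (a τ)) (g k)) α ≠ 0 := by
  classical
  obtain ⟨s, hs, hsep⟩ := exists_isTranscendenceBasis_and_isSeparable_of_perfectField P F
  obtain ⟨x, hxd⟩ : ∃ x : s → F, x = Subtype.val := ⟨_, rfl⟩
  have hr : Set.range x = (s : Set F) := by simp [hxd]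
  rw [← hxd] at hs
  have hx : AlgebraicIndependent P x := hs.1
  rw [← hr] at hsep
  have : Algebra.IsAlgebraic (IntermediateField.adjoin P (Set.range x)) F := inferInstance
  have : Algebra.EssFiniteType (IntermediateField.adjoin P (Set.range x)) F :=
    Algebra.EssFiniteType.of_comp P (IntermediateField.adjoin P (Set.range x)) F
  have : FiniteDimensional (IntermediateField.adjoin P (Set.range x)) F :=
    Algebra.finite_of_essFiniteType_of_isAlgebraic
  obtain ⟨pb⟩ : Nonempty (PowerBasis (IntermediateField.adjoin P (Set.range x)) F) :=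
    ⟨Field.powerBasisOfFiniteOfSeparable _ _⟩
  obtain ⟨m, hm⟩ : ∃ m : (IntermediateField.adjoin P (Set.range x))[X],
    m = minpoly _ pb.gen := ⟨_, rfl⟩
  have hmsep : m.Separable := by
    rw [hm]
    exact Algebra.IsSeparable.isSeparable _ pb.gen
  have hmdeg : m.degree ≠ 0 := by
    rw [hm]
    exact (minpoly.degree_pos (Algebra.IsIntegral.isIntegral pb.gen)).ne'
  obtain ⟨⟨d, hd⟩, hdm⟩ := IsLocalization.exist_integer_multiples_of_finite
    (nonZeroDivisors (MvPolynomial s P))
    (fun k : Fin (m.natDegree + 1) => hx.aevalEquivField.symm (m.coeff k))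
  choose g hg using hdm
  have hg' : ∀ k, hx.aevalEquivField (algebraMap (MvPolynomial s P) _ (g k)) =
      hx.aevalEquivField (algebraMap (MvPolynomial s P) _ d) * m.coeff k := by
    intro k
    rw [hg k, Algebra.smul_def, map_mul, AlgEquiv.apply_symm_apply]
  have hd0 : d ≠ 0 := nonZeroDivisors.ne_zero hd
  refine ⟨s, inferInstance, x, m.natDegree, g, hs.isAlgebraic, ?_, ?_⟩
  · intro N _ _ t α ht h0
    obtain ⟨ρ, hρ⟩ := exists_rat x hx t ht
    have h3 : ∀ k, MvPolynomial.aeval t (g k) =
        MvPolynomial.aeval t d * ρ.toRingHom (m.coeff k) := by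
      intro k
      rw [← hρ, ← hρ, hg' k, map_mul]
      rfl
    have h2 : MvPolynomial.aeval t d ≠ 0 := fun h => hd0 (ht (h.trans (map_zero _).symm))
    have h4 : eval₂ ρ.toRingHom α m = 0 := by
      simp_rw [h3] at h0
      rw [pval_eq] at h0
      exact (mul_eq_zero.1 h0).resolve_left h2
    rw [hm] at h4
    obtain ⟨φ, hφ⟩ := exists_lift pb ρ α h4
    refine ⟨φ, fun τ => ?_⟩
    rw [← algebraMap_var x hx τ, hφ, hρ, MvPolynomial.aeval_X]
  · intro K _ _ a ha
    obtain ⟨ρ, hρ⟩ := exists_rat x hx a ha
    obtain ⟨N, i1, i2, i3, α, i4, i5, i6, hev⟩ :=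
      exists_splitting (P := P) m hmsep hmdeg ρ.toRingHom
    have h2 : MvPolynomial.aeval a d ≠ 0 := fun h => hd0 (ha (h.trans (map_zero _).symm))
    have hc : ∀ k : Fin (m.natDegree + 1),
        MvPolynomial.aeval (fun τ => algebraMap K N (a τ)) (g k) =
        algebraMap K N (MvPolynomial.aeval a d) *
          ((algebraMap K N).comp ρ.toRingHom) (m.coeff k) := by
      intro k
      have h4 := MvPolynomial.aeval_algebraMap_apply (A := K) N a (g k)
      rw [← hρ, hg' k, map_mul, map_mul, hρ] at h4
      exact h4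
    refine ⟨N, i1, i2, i3, α, i4, i5, i6, ?_, ?_⟩
    · simp_rw [hc]
      rw [pval_eq, hev, mul_zero]
    · simp_rw [hc]
      rw [dval_eq]
      refine mul_ne_zero ?_ (hmsep.eval₂_derivative_ne_zero _ hev)
      rwa [Ne, map_eq_zero]

end Pool.Agent.Helper7.BS
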