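import Pool.Agent.Helper7.BS.Indep
import Pool.Agent.Helper7.BS.Model
import Pool.Agent.Helper7.BS.Conj

/-!
# Classes over a complete field
-/

set_option autoImplicit false

namespace Pool.Agent.Helper7.BS

open Pool.Agent.Q26.TL Cardinal

/-- Galois descent for a functor from commutative rings to `ℚ`-vector spaces: for a finite Galois
extension `N / K` the invariant elements of `H(N)` come from `H(K)` -/
def GaloisDescent (H : Fun) : Prop :=
  ∀ (K N : Type) [Field K] [Field N] [Algebra K N] [FiniteDimensional K N] [IsGalois K N]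
    (x : V H N), (∀ σ : N ≃ₐ[K] N, mp H (σ : N →+* N) x = x) →
      ∃ y : V H K, mp H (algebraMap K N) y = x

/-- a class over a field comes from a subfield finitely generated over `P` -/
theorem exists_fg {H : Fun} (hH : Good H) {P F : Type} [Field P] [Field F] [Algebra P F]
    (x : V H F) (hx : x ≠ 0) :
    ∃ (L : Type) (_ : Field L) (_ : Algebra P L) (_ : Algebra.EssFiniteType P L) (s : Finset L)
      (y : V H (Subring.closure (s : Set L))),
      mp H (Subring.closure (s : Set L)).subtype y ≠ 0 := by
  classical
  obtain ⟨s, y, hy⟩ := hH.fin1 F x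
  have hsL : ∀ z ∈ s, z ∈ IntermediateField.adjoin P (s : Set F) :=
    fun z hz => IntermediateField.subset_adjoin P _ hz
  let s₁ : Finset (IntermediateField.adjoin P (s : Set F)) :=
    s.attach.image fun z => ⟨z.1, hsL z.1 z.2⟩
  have hle : Subring.closure (s : Set F) ≤
      (IntermediateField.adjoin P (s : Set F)).toSubring := by
    rw [Subring.closure_le]
    exact hsL
  let ι : Subring.closure (s : Set F) →+* IntermediateField.adjoin P (s : Set F) :=
    Subring.inclusion hle
  have hι : ∀ w, ι w ∈ Subring.closure (s₁ : Set (IntermediateField.adjoin P (s : Set F))) := by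
    refine closure_hom_mem _ _ _ fun z hz => ?_
    apply Subring.subset_closure
    rw [Finset.mem_coe, Finset.mem_image]
    exact ⟨⟨z, hz⟩, Finset.mem_attach _ _, rfl⟩
  refine ⟨IntermediateField.adjoin P (s : Set F), inferInstance, inferInstance, ?_, s₁,
    mp H (ι.codRestrict _ hι) y, ?_⟩
  · exact IntermediateField.essFiniteType_iff.2 (IntermediateField.fg_adjoin_finset s)
  · intro h
    apply hx
    rw [← hy]
    have h1 := congrArg (mp H (algebraMap (IntermediateField.adjoin P (s : Set F)) F)) h
    rw [mp_mp, mp_mp, map_zero] at h1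
    exact h1

/-- an algebraic independent family in a complete field -/
theorem exists_point {P K T : Type} [Field P] [Countable P] [Finite T]
    [NontriviallyNormedField K] [CompleteSpace K] [Algebra P K] :
    ∃ a : T → K, AlgebraicIndependent P a := by
  obtain ⟨c, -, hc2⟩ := exists_generic (B := P) (RingHom.id K) 1 one_pos
  have hKinf : Infinite K := NontriviallyNormedField.infinite K
  obtain ⟨em⟩ := exists_embedding (K := K) (J := T)
  have h1 : Function.Injective fun τ : T => em (0, τ) := by
    intro τ τ' h
    have h2 := em.injective h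
    exact (Prod.ext_iff.1 h2).2
  exact ⟨_, hc2.comp _ h1⟩

theorem alg_of_support {P k L Ω T : Type} [Field P] [Field k] [Field L] [Field Ω] [Algebra P k]
    [Algebra P L] [Algebra P Ω] [Algebra k Ω] [IsScalarTower P k Ω] (x : T → L)
    (hx : Algebra.IsAlgebraic (Algebra.adjoin P (Set.range x)) L) (Ψ : L →ₐ[P] Ω) (S : Set Ω)
    (hS : ∀ τ, Ψ (x τ) ∈ S) (w : L) : IsAlgebraic (Algebra.adjoin k S) (Ψ w) := by
  have h1 : ∀ z : Algebra.adjoin P (Set.range x), Ψ z ∈ Algebra.adjoin k S := by
    intro z
    have h2 : Ψ z ∈ (Algebra.adjoin P (Set.range x)).map Ψ := ⟨z, z.2, rfl⟩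
    rw [AlgHom.map_adjoin] at h2
    have h3 : Algebra.adjoin P (Ψ '' Set.range x) ≤
        (Algebra.adjoin k S).restrictScalars P := by
      rw [Algebra.adjoin_le_iff]
      rintro _ ⟨_, ⟨τ, rfl⟩, rfl⟩
      exact Algebra.subset_adjoin (hS τ)
    exact h3 h2
  let f : Algebra.adjoin P (Set.range x) →+* Algebra.adjoin k S :=
    (Ψ.toRingHom.comp (Algebra.adjoin P (Set.range x)).val.toRingHom).codRestrict _ h1
  have hf : Function.Injective f := by
    intro z z' h
    exact Subtype.ext (Ψ.toRingHom.injective (congrArg Subtype.val h))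
  exact (hx.isAlgebraic w).ringHom_of_comp_eq (S := Algebra.adjoin k S) (B := Ω) f
    Ψ.toRingHom hf rfl

/-- the sum of the conjugates of a class descends -/
theorem exists_descent {H : Fun} (hG : GaloisDescent H) {K N L : Type} [Field K] [Field N]
    [Field L] [Algebra K N] [FiniteDimensional K N] [IsGalois K N] (φ : L →+* N) (y : V H L) :
    ∃ v : V H K, mp H (algebraMap K N) v =
      ∑ σ : N ≃ₐ[K] N, mp H ((σ : N →+* N).comp φ) y := by
  refine hG K N _ fun σ' => ?_
  rw [map_sum]
  refine Fintype.sum_equiv (Equiv.mulLeft σ') _ _ fun σ => ?_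
  rw [mp_mp]
  rfl

end Pool.Agent.Helper7.BS
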