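import Pool.Agent.Helper7.BS.Law
import Pool.Agent.Helper7.BS.Laurent

/-!
# The Beilinson–Soulé conjecture in one characteristic is decided in degree `0` by one complete
field
-/

set_option autoImplicit false

namespace Pool.Agent.Helper7.BS

open Pool.Agent.Q26.TL Pool.Agent.Q26.SP.Zero Cardinal

/-- Motivic cohomology as in `Motivic`, where the rational theory satisfies Galois descent. -/
structure MotivicDescent extends Motivic where
  descent : ∀ i n, GaloisDescent (H i n)

theorem prime_cases (P : Type) [Field P] (hP : IsPrimeField P) :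
    (CharZero P ∧ Nonempty (ℚ ≃+* P)) ∨
      ∃ (q : ℕ) (_ : Fact q.Prime), Nonempty (ZMod q ≃+* P) := by
  obtain _ | ⟨q, hq, hqP⟩ := CharP.exists' P
  · left
    refine ⟨inferInstance, ⟨RingEquiv.ofBijective (algebraMap ℚ P)
      ⟨(algebraMap ℚ P).injective, fun x => ?_⟩⟩⟩
    have h1 : x ∈ (⊥ : Subfield P) := by
      rw [hP]
      trivial
    rw [Subfield.bot_eq_of_charZero] at h1
    exact h1
  · right
    let _ : Algebra (ZMod q) P := ZMod.algebra P q
    refine ⟨q, hq, ⟨RingEquiv.ofBijective (algebraMap (ZMod q) P)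
      ⟨(algebraMap (ZMod q) P).injective, fun x => ?_⟩⟩⟩
    have h1 : x ∈ (⊥ : Subfield P) := by
      rw [hP]
      trivial
    rw [Subfield.bot_eq_of_zMod_algebra q] at h1
    exact h1

theorem prime_countable (P : Type) [Field P] (hP : IsPrimeField P) : Countable P := by
  rcases prime_cases P hP with ⟨-, ⟨e⟩⟩ | ⟨q, hq, ⟨e⟩⟩
  · exact e.symm.injective.countable
  · exact e.symm.injective.countable

theorem prime_perfect (P : Type) [Field P] (hP : IsPrimeField P) : PerfectField P := by
  rcases prime_cases P hP with ⟨h, -⟩ | ⟨q, hq, ⟨e⟩⟩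
  · infer_instance
  · have : Finite P := Finite.of_equiv _ e.toEquiv
    infer_instance

theorem zero_of_small (M : MotivicDescent) {P K L : Type} [Field P] [NontriviallyNormedField K]
    [CompleteSpace K] [Algebra P K] [Field L] [Algebra K L] (hP : IsPrimeField P) (i n : ℤ)
    (hi : i ≤ 0) (hn : 1 ≤ n) (h : Module.rank ℚ (V (M.H i n) L) < #K) (F : Type) [Field F]
    [Algebra P F] (x : V (M.H i n) F) : x = 0 := by
  by_contra hx
  have := prime_countable P hP
  have := prime_perfect P hP
  obtain ⟨v, hv⟩ := law (M.good i n) (M.descent i n) (P := P) (K := K)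
    (fun k _ _ _ => M.base P k hP i n hi hn) x hx
  have h1 : LinearIndependent ℚ (mp (M.H i n) (algebraMap K L) ∘ v) :=
    hv.map' _ (LinearMap.ker_eq_bot.2 ((M.good i n).inj _))
  exact absurd h (not_lt.2 h1.cardinal_le_rank)

theorem integral_zero (M : Motivic) (F : Type) [Field F] (i n : ℤ) (hi : i ≤ 0) (hn : 1 ≤ n)
    (h : ∀ x : V (M.H i n) F, x = 0) : Subsingleton (M.HZ F i n) := by
  obtain ⟨q, hq, -⟩ := M.rational F i n
  have h1 : ∀ x : M.HZ F i n, x = 0 := by
    intro x
    obtain ⟨m, hm, h4⟩ := hq x (h _)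
    exact M.torsionFree F i n hi hn x m hm h4
  exact ⟨fun x y => (h1 x).trans (h1 y).symm⟩

theorem main_bidegree (M : MotivicDescent) {P K L : Type} [Field P] [NontriviallyNormedField K]
    [CompleteSpace K] [Algebra P K] [Field L] [Algebra K L] (hP : IsPrimeField P) (i n : ℤ)
    (hi : i ≤ 0) (hn : 1 ≤ n) :
    (Subsingleton (M.HZ L i n) ↔
      ∀ (F : Type) [Field F] [Algebra P F], Subsingleton (M.HZ F i n)) ∧
    ((∀ x : V (M.H i n) L, x = 0) ∨ #K ≤ Module.rank ℚ (V (M.H i n) L)) := by
  let _ : Algebra P L := ((algebraMap K L).comp (algebraMap P K)).toAlgebra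
  refine ⟨⟨fun h F _ _ => ?_, fun h => h L⟩, ?_⟩
  · refine integral_zero M.toMotivic F i n hi hn ?_
    refine zero_of_small M hP (K := K) (L := L) i n hi hn ?_ F
    have : Subsingleton (V (M.H i n) L) :=
      ⟨fun x y => (rational_zero M.toMotivic L i n h x).trans
        (rational_zero M.toMotivic L i n h y).symm⟩
    rw [rank_subsingleton']
    exact pos_iff_ne_zero.2 (Cardinal.mk_ne_zero K)
  · by_cases h : #K ≤ Module.rank ℚ (V (M.H i n) L)
    · exact Or.inr h
    · exact Or.inl fun x => zero_of_small M hP (K := K) (L := L) i n hi hn (not_le.1 h) L x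

/-- the vanishing for fields is the vanishing of the sheaves -/
theorem sheaves_iff_fields (M : Motivic) {P K : Type} [Field P] [NontriviallyNormedField K]
    [CompleteSpace K] [Algebra P K] (hP : IsPrimeField P) :
    SheavesVanish M P ↔ FieldsVanish M P := by
  have := prime_countable P hP
  obtain ⟨c, -, hc⟩ := exists_generic (B := P) (algebraMap K (AlgebraicClosure K)) 1 one_pos
  obtain ⟨S, hS, hb⟩ := exists_isTranscendenceBasis_superset hc.to_subtype_range
  have hKinf : Infinite K := NontriviallyNormedField.infinite K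
  have hinf : Infinite S := by
    refine Infinite.of_injective
      (fun x : K => (⟨algebraMap K (AlgebraicClosure K) (c x), hS ⟨x, rfl⟩⟩ : S)) ?_
    intro x y h
    exact hc.injective (congrArg Subtype.val h)
  exact ((main M).2 P (AlgebraicClosure K) S (Subtype.val : S → AlgebraicClosure K) hP
    hb).1.out 0 3

theorem main_tfae (M : MotivicDescent) {P K L : Type} [Field P] [NontriviallyNormedField K]
    [CompleteSpace K] [Algebra P K] [Field L] [Algebra K L] (hP : IsPrimeField P) :
    [SheavesVanish M.toMotivic P, ZeroVanish M.toMotivic L, ZeroSmall M.toMotivic L K,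
      FieldsVanish M.toMotivic P].TFAE := by
  have h14 := sheaves_iff_fields M.toMotivic (P := P) (K := K) hP
  tfae_have 1 → 2 := by
    intro h n hn
    let _ : Algebra P L := ((algebraMap K L).comp (algebraMap P K)).toAlgebra
    exact h14.1 h L 0 n le_rfl hn
  tfae_have 2 → 3 := by
    intro h n hn
    have h1 := h n hn
    have : Subsingleton (V (M.H 0 n) L) :=
      ⟨fun x y => (rational_zero M.toMotivic L 0 n h1 x).trans
        (rational_zero M.toMotivic L 0 n h1 y).symm⟩
    rw [rank_subsingleton']
    exact pos_iff_ne_zero.2 (Cardinal.mk_ne_zero K)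
  tfae_have 3 → 4 := by
    intro h F _ _ i n hi hn
    refine integral_zero M.toMotivic F i n hi hn fun x => ?_
    by_contra hx
    obtain ⟨m, hm⟩ := Int.eq_ofNat_of_zero_le (show 0 ≤ -i by omega)
    have h5 := M.toTheory.exists_units (P := P) m i n F x hx
    rw [show i + (m : ℤ) = 0 by omega] at h5
    obtain ⟨F', _, _, y, hy⟩ := h5
    exact hy (zero_of_small M hP (K := K) (L := L) 0 _ le_rfl (by omega) (h _ (by omega)) F' y)
  tfae_have 4 → 1 := h14.2
  tfae_finish

theorem vanish_equiv (M : Motivic) {P P' : Type} [Field P] [Field P'] (e : P ≃+* P')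
    (h : FieldsVanish M P) : FieldsVanish M P' := by
  intro F _ _ i n hi hn
  let _ : Algebra P F := ((algebraMap P' F).comp e.toRingHom).toAlgebra
  exact h F i n hi hn

theorem laurent_iff (M : MotivicDescent) (k : Type) [Field k] (P : Type) [Field P]
    [Algebra P (LaurentSeries k)] (hP : IsPrimeField P) :
    SheavesVanish M.toMotivic P ↔ ZeroVanish M.toMotivic (LaurentSeries k) := by
  let _ := laurentNormed k
  have _ : CompleteSpace (LaurentSeries k) := laurent_complete k
  exact (main_tfae M (P := P) (K := LaurentSeries k) (L := LaurentSeries k) hP).out 0 1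

theorem isPrimeField_rat : IsPrimeField ℚ := subsingleton_iff_bot_eq_top.mpr inferInstance

theorem isPrimeField_zmod (q : ℕ) [Fact q.Prime] : IsPrimeField (ZMod q) :=
  subsingleton_iff_bot_eq_top.mpr inferInstance

/-- The question is decided in degree `0` by one complete field of characteristic zero and the
fields of Laurent series over the finite prime fields. -/
theorem question_iff (M : MotivicDescent) (K : Type) [NontriviallyNormedField K]
    [CompleteSpace K] [CharZero K] :
    Question M.toMotivic ↔ ZeroVanish M.toMotivic K ∧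
      ∀ (q : ℕ) [Fact q.Prime], ZeroVanish M.toMotivic (LaurentSeries (ZMod q)) := by
  rw [(main M.toMotivic).1]
  constructor
  · intro h
    refine ⟨?_, fun q _ => ?_⟩
    · exact ((main_tfae M (P := ℚ) (K := K) (L := K) isPrimeField_rat).out 0 1).1
        (h ℚ isPrimeField_rat)
    · exact (laurent_iff M (ZMod q) (ZMod q) (isPrimeField_zmod q)).1
        (h (ZMod q) (isPrimeField_zmod q))
  · rintro ⟨h0, h1⟩ P _ hP
    rcases prime_cases P hP with ⟨-, ⟨e⟩⟩ | ⟨q, hq, ⟨e⟩⟩
    · let _ : Algebra P K := ((algebraMap ℚ K).comp e.symm.toRingHom).toAlgebra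
      exact ((main_tfae M (P := P) (K := K) (L := K) hP).out 0 1).2 h0
    · let _ : Algebra P (LaurentSeries (ZMod q)) :=
        ((algebraMap (ZMod q) (LaurentSeries (ZMod q))).comp e.symm.toRingHom).toAlgebra
      exact (laurent_iff M (ZMod q) P hP).2 (h1 q)

/-- What the field `L` over `K` decides, in the characteristic of `P`: the following are equivalent

1. `ℋⁱ(ℤ(n)) = 0` on `Sm/k` for all fields `k` of the characteristic of `P`, `n ≥ 1`, `i ≤ 0`;
2. `H⁰(L, ℤ(n)) = 0` for all `n ≥ 1`;
3. the dimension of `H⁰(L, ℚ(n))` is less than the cardinality of `K`, for all `n ≥ 1`;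
4. `Hⁱ(F, ℤ(n)) = 0` for all fields `F` of the characteristic of `P`, `n ≥ 1`, `i ≤ 0`;

and for all `i ≤ 0`, `n ≥ 1`: `Hⁱ(L, ℤ(n)) = 0` if and only if `Hⁱ(F, ℤ(n)) = 0` for all fields `F`
of the characteristic of `P`, and `Hⁱ(L, ℚ(n))` is zero or has dimension at least the cardinality
of `K`. -/
def Decides (M : MotivicDescent) (P K L : Type) [Field P] [Field L] : Prop :=
  [SheavesVanish M.toMotivic P, ZeroVanish M.toMotivic L, ZeroSmall M.toMotivic L K,
    FieldsVanish M.toMotivic P].TFAE ∧
  ∀ i n : ℤ, i ≤ 0 → 1 ≤ n →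
    (Subsingleton (M.HZ L i n) ↔
      ∀ (F : Type) [Field F] [Algebra P F], Subsingleton (M.HZ F i n)) ∧
    ((∀ x : V (M.H i n) L, x = 0) ∨ #K ≤ Module.rank ℚ (V (M.H i n) L))

theorem decides_complete (M : MotivicDescent) (P K L : Type) [Field P]
    [NontriviallyNormedField K] [CompleteSpace K] [Algebra P K] [Field L] [Algebra K L]
    (hP : IsPrimeField P) : Decides M P K L :=
  ⟨main_tfae M hP, fun i n hi hn => main_bidegree M hP i n hi hn⟩

theorem decides_laurent (M : MotivicDescent) (P k L : Type) [Field P] [Field k]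
    [Algebra P (LaurentSeries k)] [Field L] [Algebra (LaurentSeries k) L]
    (hP : IsPrimeField P) : Decides M P (LaurentSeries k) L := by
  let _ := laurentNormed k
  have _ : CompleteSpace (LaurentSeries k) := laurent_complete k
  exact decides_complete M P (LaurentSeries k) L hP

end Pool.Agent.Helper7.BS
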