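import Mathlib

/-!
# Roots of polynomials near a given polynomial with a simple root
-/

set_option autoImplicit false

namespace Pool.Agent.Helper7.BS

open Filter Topology

/-- the value of the polynomial with coefficients `c` -/
def pval {N : Type} [CommSemiring N] {D : ℕ} (c : Fin (D + 1) → N) (a : N) : N :=
  ∑ k : Fin (D + 1), c k * a ^ (k : ℕ)

/-- the value of the derivative -/
def dval {N : Type} [CommSemiring N] {D : ℕ} (c : Fin (D + 1) → N) (a : N) : N :=
  ∑ k : Fin (D + 1), c k * ((k : ℕ) * a ^ ((k : ℕ) - 1))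

theorem root_near {𝕜 N : Type} [NontriviallyNormedField 𝕜] [NormedCommRing N] [NormedAlgebra 𝕜 N]
    [CompleteSpace N] {D : ℕ} (c : Fin (D + 1) → N) (a : N) (h0 : pval c a = 0)
    (h1 : IsUnit (dval c a)) : ∀ᶠ c' in 𝓝 c, ∃ a', pval c' a' = 0 := by
  let E₁ := Fin (D + 1) → N
  let pr : ∀ k : Fin (D + 1), (E₁ × N) →L[𝕜] N := fun k =>
    (ContinuousLinearMap.proj (R := 𝕜) (φ := fun _ => N) k).comp (ContinuousLinearMap.fst 𝕜 E₁ N)
  let f : E₁ × N → N := fun v => pval v.1 v.2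
  have hf : ∃ f' : (E₁ × N) →L[𝕜] N, HasStrictFDerivAt f f' (c, a) ∧
      ∀ w : N, f' (0, w) = dval c a * w := by
    have h2 : ∀ k : Fin (D + 1), ∃ g : (E₁ × N) →L[𝕜] N,
        HasStrictFDerivAt (fun v : E₁ × N => v.1 k * v.2 ^ (k : ℕ)) g (c, a) ∧
        ∀ w : N, g (0, w) = c k * ((k : ℕ) * a ^ ((k : ℕ) - 1)) * w := by
      intro k
      have e1 : HasStrictFDerivAt (fun v : E₁ × N => v.1 k) (pr k) (c, a) :=
        (pr k).hasStrictFDerivAt
      have e2 : HasStrictFDerivAt (fun v : E₁ × N => v.2 ^ (k : ℕ)) _ (c, a) :=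
        (ContinuousLinearMap.snd 𝕜 E₁ N).hasStrictFDerivAt.pow (k : ℕ)
      refine ⟨_, e1.mul e2, fun w => ?_⟩
      have h3 : pr k (0, w) = 0 := rfl
      simp [h3]
      ring
    choose g hg1 hg2 using h2
    refine ⟨∑ k, g k, ?_, fun w => ?_⟩
    · have := HasStrictFDerivAt.fun_sum (u := Finset.univ) (fun k _ => hg1 k)
      exact this
    · rw [sum_apply, dval, Finset.sum_mul]
      exact Finset.sum_congr rfl fun k _ => hg2 k w
  obtain ⟨f', hf1, hf2⟩ := hf
  have hinv : (f' ∘L .inr 𝕜 E₁ N).IsInvertible := by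
    obtain ⟨u, hu⟩ := h1
    refine ContinuousLinearMap.IsInvertible.of_inverse (g := ContinuousLinearMap.mul 𝕜 N ↑u⁻¹) ?_ ?_
    · ext w
      change f' (0, ↑u⁻¹ * w) = w
      rw [hf2, ← hu, Units.mul_inv_cancel_left]
    · ext w
      change ↑u⁻¹ * f' (0, w) = w
      rw [hf2, ← hu, Units.inv_mul_cancel_left]
  have := hf1.eventually_apply_implicitFunctionOfProdDomain hinv
  filter_upwards [this] with c' hc'
  refine ⟨_, hc'.trans ?_⟩
  exact h0

end Pool.Agent.Helper7.BS
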