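import Pool.Agent.Helper7.BS.Root

/-!
# Roots in finite extensions of complete fields
-/

set_option autoImplicit false

namespace Pool.Agent.Helper7.BS

open Filter Topology MvPolynomial

theorem continuous_aeval {P N T E : Type} [Field P] [NormedCommRing N] [Algebra P N]
    [TopologicalSpace E] (F : E → T → N) (hF : ∀ τ, Continuous fun e => F e τ)
    (g : MvPolynomial T P) : Continuous fun e => aeval (F e) g := by
  induction g using MvPolynomial.induction_on with
  | C a => simpa using continuous_const
  | add p q hp hq =>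
    simp only [map_add]
    exact hp.add hq
  | mul_X p i hp =>
    simp only [map_mul, aeval_X]
    exact hp.mul (hF i)

theorem root_coord_aux {P K N T ι : Type} [Field P] [NontriviallyNormedField K]
    [NormedCommRing N] [NormedAlgebra K N] [CompleteSpace N] [Algebra P N] [Fintype T]
    [Fintype ι] (θ : ι → N) {D : ℕ} (g : Fin (D + 1) → MvPolynomial T P) (a : T → N) (α : N)
    (h0 : pval (fun k => aeval a (g k)) α = 0)
    (h1 : IsUnit (dval (fun k => aeval a (g k)) α)) :
    ∃ ε : ℝ, 0 < ε ∧ ∀ e : ι → T → K, (∀ j τ, ‖e j τ‖ < ε) →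
      ∃ α', pval (fun k => aeval (fun τ => a τ + ∑ j, e j τ • θ j) (g k)) α' = 0 := by
  have h2 := root_near (𝕜 := K) _ α h0 h1
  let Φ : (ι → T → K) → Fin (D + 1) → N := fun e k =>
    aeval (fun τ => a τ + ∑ j, e j τ • θ j) (g k)
  have hΦ : Continuous Φ := by
    refine continuous_pi fun k => continuous_aeval _ (fun τ => ?_) (g k)
    fun_prop
  have h3 : Φ 0 = fun k => aeval a (g k) := by
    funext k
    simp [Φ]
  have h4 := (hΦ.tendsto 0)
  rw [h3] at h4
  have h5 := h4.eventually h2
  rw [Metric.eventually_nhds_iff] at h5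
  obtain ⟨ε, hε, h6⟩ := h5
  refine ⟨ε, hε, fun e he => h6 ?_⟩
  rw [dist_pi_lt_iff hε]
  intro j
  rw [dist_pi_lt_iff hε]
  intro τ
  simpa using he j τ

theorem root_coord {P K N T ι : Type} [Field P] [NontriviallyNormedField K] [CompleteSpace K]
    [Field N] [Algebra K N] [FiniteDimensional K N] [Algebra P N] [Fintype T]
    [Fintype ι] (θ : ι → N) {D : ℕ} (g : Fin (D + 1) → MvPolynomial T P) (a : T → N) (α : N)
    (h0 : pval (fun k => aeval a (g k)) α = 0)
    (h1 : dval (fun k => aeval a (g k)) α ≠ 0) :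
    ∃ ε : ℝ, 0 < ε ∧ ∀ e : ι → T → K, (∀ j τ, ‖e j τ‖ < ε) →
      ∃ α', pval (fun k => aeval (fun τ => a τ + ∑ j, e j τ • θ j) (g k)) α' = 0 := by
  classical
  let bN := Module.finBasis K N
  letI i1 : NormedRing (Matrix (Fin (Module.finrank K N)) (Fin (Module.finrank K N)) K) :=
    Matrix.linftyOpNormedRing
  letI i2 : NormedAlgebra K (Matrix (Fin (Module.finrank K N)) (Fin (Module.finrank K N)) K) :=
    Matrix.linftyOpNormedAlgebra
  letI i3 : NormedCommRing N := NormedCommRing.induced N
    (Matrix (Fin (Module.finrank K N)) (Fin (Module.finrank K N)) K)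
    (Algebra.leftMulMatrix bN) (Algebra.leftMulMatrix_injective bN)
  letI i4 : NormedAlgebra K N := NormedAlgebra.induced K N
    (Matrix (Fin (Module.finrank K N)) (Fin (Module.finrank K N)) K) (Algebra.leftMulMatrix bN)
  have hc : CompleteSpace N := FiniteDimensional.complete K N
  exact root_coord_aux θ g a α h0 (isUnit_iff_ne_zero.2 h1)

end Pool.Agent.Helper7.BS
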