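import Pool.Graph.R_pool_sql_team_seeded_3997aac3.Q26.SP.Zero

/-!
# Independent embeddings

If a sum of images of a class under ring homomorphisms which use disjoint parts of a transcendence
basis vanishes, then all the terms vanish.  (The proof is that of `Pool.Agent.Q26.TL.law`.)
-/

set_option autoImplicit false

namespace Pool.Agent.Helper7.BS

open Pool.Agent.Q26.TL

theorem indep_zero {H : Fun} (hH : Good H) {k Ω I : Type} [Field k] [Field Ω] [Algebra k Ω]
    [IsAlgClosed k] [IsAlgClosed Ω] (b : I → Ω) (hb : IsTranscendenceBasis k b)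
    (hk : ∀ x : V H k, x = 0) {L : Type} [Field L] (s : Finset L)
    {X : Type} (y : X → V H (Subring.closure (s : Set L))) (J : Finset X) (ψ' : X → L →+* Ω)
    (E : X → Finset I) (hE : ∀ i ∈ J, ∀ j ∈ J, i ≠ j → Disjoint (E i) (E j))
    (hφ : ∀ j ∈ J, ∀ w : L, IsAlgebraic (Algebra.adjoin k (b '' (E j : Set I))) (ψ' j w))
    (hg : ∑ j ∈ J, mp H ((ψ' j).comp (Subring.closure (s : Set L)).subtype) (y j) = 0)
    (j1 : X) (hj1 : j1 ∈ J) :
    mp H ((ψ' j1).comp (Subring.closure (s : Set L)).subtype) (y j1) = 0 := by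
  classical
  let ι : Subring.closure (s : Set L) →+* L := (Subring.closure (s : Set L)).subtype
  let T : Finset I := (J.erase j1).biUnion E
  obtain ⟨F, hF1, hF2, hF3, hF4⟩ := exists_split b hb (T : Set I)
  let u : X → Finset Ω := fun j => s.image (fun z => ψ' j z)
  let G : Finset Ω := J.biUnion u ∪ T.image b
  let C : Subring Ω := (Algebra.adjoin F (G : Set Ω)).toSubring
  have hG : ∀ z ∈ G, z ∈ C := fun z hz => Algebra.subset_adjoin hz
  have hψ : ∀ (j : {j // j ∈ J}) (w : Subring.closure (s : Set L)), ψ' j.1 (ι w) ∈ C := by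
    intro j
    refine closure_hom_mem _ ((ψ' j.1).comp ι) C fun z hz => ?_
    apply hG
    refine Finset.mem_union_left _ (Finset.mem_biUnion.2 ⟨j.1, j.2, ?_⟩)
    exact Finset.mem_image.2 ⟨z, hz, rfl⟩
  let ψ : {j // j ∈ J} → Subring.closure (s : Set L) →+* C := fun j =>
    ((ψ' j.1).comp ι).codRestrict C (hψ j)
  let z : V H C := ∑ j ∈ J.attach, mp H (ψ j) (y j.1)
  have hz : mp H C.subtype z = 0 := by
    rw [map_sum]
    rw [← Finset.sum_attach] at hg
    refine Eq.trans (Finset.sum_congr rfl fun j _ => ?_) hg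
    rw [mp_mp]
    rfl
  obtain ⟨s', hs'⟩ := hH.fin2 Ω C z hz
  let G' : Finset Ω := G ∪ s'
  let D := Algebra.adjoin F (G' : Set Ω)
  have hCD : C ≤ D.toSubring := by
    intro w hw
    refine Algebra.adjoin_mono ?_ hw
    exact Finset.coe_subset.2 (Finset.subset_union_left)
  have hle2 : Subring.closure ((C : Set Ω) ∪ s') ≤ D.toSubring := by
    rw [Subring.closure_le]
    rintro w (hw | hw)
    · exact hCD hw
    · exact Algebra.subset_adjoin (Finset.mem_coe.2 (Finset.mem_union_right _ hw))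
  let ic : C →+* D := Subring.inclusion hCD
  have hzD : mp H ic z = 0 := by
    have h1 := congrArg (mp H (Subring.inclusion hle2)) hs'
    rw [map_zero, mp_mp] at h1
    exact h1
  let Q : Finset Ω := (J.erase j1).biUnion u
  have hQ : ∀ q ∈ Q, q ∈ Algebra.adjoin F (G' : Set Ω) ∧
      IsAlgebraic (Algebra.adjoin k (Set.range fun i : (T : Set I) => b i)) q := by
    intro q hq
    obtain ⟨j, hj, hq⟩ := Finset.mem_biUnion.1 hq
    refine ⟨hCD (hG q (Finset.mem_union_left _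
      (Finset.mem_biUnion.2 ⟨j, Finset.mem_of_mem_erase hj, hq⟩))), ?_⟩
    obtain ⟨w, -, rfl⟩ := Finset.mem_image.1 hq
    refine (hφ j (Finset.mem_of_mem_erase hj) _).tower_top_of_subalgebra_le
      (Algebra.adjoin_mono ?_)
    rintro _ ⟨i, hi, rfl⟩
    exact ⟨⟨i, Finset.mem_coe.2 (Finset.mem_biUnion.2 ⟨j, hj, hi⟩)⟩, rfl⟩
  obtain ⟨g', hg'⟩ := exists_specialisation (k := k) (F := F) (Ω := Ω)
    (fun i : (T : Set I) => b i) hF2 hF3 G' (fun i => hCD (hG _ (Finset.mem_union_right _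
      (Finset.mem_image.2 ⟨i.1, i.2, rfl⟩)))) Q hQ
  have hsum : ∑ j ∈ J.attach, mp H ((g'.toRingHom.comp ic).comp (ψ j)) (y j.1) = 0 := by
    have h1 := congrArg (mp H g'.toRingHom) hzD
    rw [map_zero, mp_mp, map_sum] at h1
    refine Eq.trans (Finset.sum_congr rfl fun j _ => ?_) h1
    rw [mp_mp]
  have hterm : ∀ j ∈ J.attach, j ≠ ⟨j1, hj1⟩ →
      mp H ((g'.toRingHom.comp ic).comp (ψ j)) (y j.1) = 0 := by
    intro j _ hj
    have hj' : j.1 ∈ J.erase j1 := Finset.mem_erase.2 ⟨fun h => hj (Subtype.ext h), j.2⟩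
    rw [mp_eq_zero_of_range (algebraMap k F) hk]
    refine closure_hom_mem _ _ _ fun w hw => ?_
    exact hg' (ψ' j.1 w) (Finset.mem_biUnion.2 ⟨j.1, hj', Finset.mem_image.2 ⟨w, hw, rfl⟩⟩)
  rw [Finset.sum_eq_single_of_mem ⟨j1, hj1⟩ (Finset.mem_attach _ _) hterm] at hsum
  have hF : ∀ w : L, ψ' j1 w ∈ F := by
    intro w
    apply hF4
    refine (hφ j1 hj1 w).tower_top_of_subalgebra_le (Algebra.adjoin_mono (Set.image_mono ?_))
    intro i hi hi'
    obtain ⟨j, hj, hij⟩ := Finset.mem_biUnion.1 hi'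
    exact Finset.disjoint_left.1 (hE j1 hj1 j (Finset.mem_of_mem_erase hj)
      (Finset.ne_of_mem_erase hj).symm) hi hij
  have h2 : (algebraMap F Ω).comp ((g'.toRingHom.comp ic).comp (ψ ⟨j1, hj1⟩)) =
      (ψ' j1).comp ι := by
    refine closure_hom_ext _ _ _ fun w hw => ?_
    have h3 : ic (ψ ⟨j1, hj1⟩ ⟨w, Subring.subset_closure hw⟩) =
        algebraMap F D ⟨ψ' j1 w, hF _⟩ := rfl
    change algebraMap F Ω (g' (ic (ψ ⟨j1, hj1⟩ ⟨w, Subring.subset_closure hw⟩))) = ψ' j1 w
    rw [h3, g'.commutes]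
    rfl
  have h4 := congrArg (mp H (algebraMap F Ω)) hsum
  rw [mp_mp, map_zero, h2] at h4
  exact h4

end Pool.Agent.Helper7.BS
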